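import Pool.Agent.RS.StmtsF

/-!
# Squad RS, row SYL: the Sylvester identity
-/

set_option autoImplicit false

open Polynomial

namespace Pool.Agent.RS.H22

/-- The Sylvester identity over a commutative ring. -/
theorem syl : SylStmt := by
  intro R _ m g b G P hb hG hP
  have hP' : P ∈ degreeLT R (m + g) := by
    rw [mem_degreeLT]
    exact hP
  let Y : degreeLT R m × degreeLT R g := adjSylvester b G ⟨P, hP'⟩
  have h1 : b * (Y.2 : R[X]) + G * (Y.1 : R[X]) = C (resultant b G m g) * P := by
    have h2 : ((sylvesterMap b G hb hG Y : degreeLT R (m + g)) : R[X]) = _ :=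
      congr(($(sylveserMap_comp_adjSylvester b G hb hG) ⟨P, hP'⟩ : R[X]))
    simpa [Algebra.smul_def] using h2
  have hY : Y = ∑ j : Fin (m + g), ((sylvester b G m g).adjugate.mulVec
      (fun k : Fin (m + g) => P.coeff k)) j •
      ((((degreeLT.basis R m).prod (degreeLT.basis R g)).reindex finSumFinEquiv) j) := by
    have h3 := Matrix.toLin_apply (degreeLT.basis R (m + g))
      (((degreeLT.basis R m).prod (degreeLT.basis R g)).reindex finSumFinEquiv)
      (sylvester b G m g).adjugate ⟨P, hP'⟩
    refine h3.trans ?_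
    refine Finset.sum_congr rfl fun j _ => ?_
    congr 2
  have hB : ∀ (i : Fin m), ((((degreeLT.basis R m).prod (degreeLT.basis R g)).reindex
      finSumFinEquiv) (Fin.castAdd g i)) = (degreeLT.basis R m i, 0) := by
    intro i
    rw [Module.Basis.reindex_apply, finSumFinEquiv_symm_apply_castAdd]
    simp
  have hB' : ∀ (i : Fin g), ((((degreeLT.basis R m).prod (degreeLT.basis R g)).reindex
      finSumFinEquiv) (Fin.natAdd m i)) = (0, degreeLT.basis R g i) := by
    intro i
    rw [Module.Basis.reindex_apply, finSumFinEquiv_symm_apply_natAdd]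
    simp
  rw [Fin.sum_univ_add] at hY
  simp only [hB, hB'] at hY
  have hsum : ∀ (n : ℕ) (f : Fin n → R), (((∑ i : Fin n, f i • degreeLT.basis R n i :
      degreeLT R n)) : R[X]) = ∑ i : Fin n, C (f i) * X ^ (i : ℕ) := by
    intro n f
    rw [AddSubmonoidClass.coe_finsetSum]
    refine Finset.sum_congr rfl fun i _ => ?_
    rw [Submodule.coe_smul, degreeLT.basis_val, smul_eq_C_mul]
  have hA : (∑ i ∈ Finset.range g, C (sylA m g b G P i) * X ^ i : R[X]) = (Y.2 : R[X]) := by
    have h4 : Y.2 = ∑ i : Fin g, ((sylvester b G m g).adjugate.mulVec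
        (fun k : Fin (m + g) => P.coeff k)) (Fin.natAdd m i) • degreeLT.basis R g i := by
      rw [hY, Prod.snd_add, Prod.snd_sum, Prod.snd_sum]
      simp
    rw [h4, hsum, Finset.sum_range]
    refine Finset.sum_congr rfl fun i _ => ?_
    congr 2
    rw [sylA, dif_pos i.2]
    rfl
  have hA' : (∑ i ∈ Finset.range m, C (sylB m g b G P i) * X ^ i : R[X]) = (Y.1 : R[X]) := by
    have h4 : Y.1 = ∑ i : Fin m, ((sylvester b G m g).adjugate.mulVec
        (fun k : Fin (m + g) => P.coeff k)) (Fin.castAdd g i) • degreeLT.basis R m i := by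
      rw [hY, Prod.fst_add, Prod.fst_sum, Prod.fst_sum]
      simp
    rw [h4, hsum, Finset.sum_range]
    refine Finset.sum_congr rfl fun i _ => ?_
    congr 2
    rw [sylB, dif_pos i.2]
    rfl
  rw [hA, hA', mul_comm, mul_comm (Y.1 : R[X])]
  exact h1

end Pool.Agent.RS.H22
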